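import Pool.Agent.Y825.RE.Union
import Mathlib.Combinatorics.SimpleGraph.Coloring.VertexColoring
import Mathlib.Analysis.SpecialFunctions.Pow.Real

/-! Turan exponents of the bipartite graphs which contain a given graph. -/

set_option autoImplicit false

namespace Pool.Agent.Y825.RE

open SimpleGraph

/-- If `H0` has extremal number of order `n ^ r`, `r > 1`, and `ex (n, F) = O (n ^ r)`, then the
disjoint union has extremal number of order `n ^ r`. -/
theorem union_theta {m k : ℕ} (F : SimpleGraph (Fin m)) (H : SimpleGraph (Fin k)) {r : ℝ}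
    (hr : 1 < r) (hF : ∃ C : ℝ, ∃ n0 : ℕ, ∀ n : ℕ, n0 ≤ n →
      (extremalNumber n F : ℝ) ≤ C * (n : ℝ) ^ r)
    (hH : ∃ c C : ℝ, 0 < c ∧ 0 < C ∧ ∃ n0 : ℕ, ∀ n : ℕ, n0 ≤ n →
      c * (n : ℝ) ^ r ≤ (extremalNumber n H : ℝ) ∧ (extremalNumber n H : ℝ) ≤ C * (n : ℝ) ^ r) :
    ∃ c C : ℝ, 0 < c ∧ 0 < C ∧ ∃ n0 : ℕ, ∀ n : ℕ, n0 ≤ n →
      c * (n : ℝ) ^ r ≤ (extremalNumber n (F ⊕g H) : ℝ) ∧
        (extremalNumber n (F ⊕g H) : ℝ) ≤ C * (n : ℝ) ^ r := by
  obtain ⟨A, n1, h1⟩ := hF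
  obtain ⟨c, C, hc, hC, n2, h2⟩ := hH
  refine ⟨c, |A| + C + k, hc, by positivity, max (max n1 n2) (m + k + 1), fun n hn => ?_⟩
  have hn1 : n1 ≤ n := (le_max_left _ _).trans ((le_max_left _ _).trans hn)
  have hn2 : n2 ≤ n := (le_max_right _ _).trans ((le_max_left _ _).trans hn)
  have hn3 : m + k + 1 ≤ n := (le_max_right _ _).trans hn
  obtain ⟨h3, h4⟩ := h2 n hn2
  have h5 := h1 n hn1
  have hn0 : (1 : ℝ) ≤ n := by
    have : 1 ≤ n := by omega
    exact_mod_cast this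
  have hpos : 0 ≤ (n : ℝ) ^ r := by positivity
  constructor
  · refine h3.trans ?_
    have h6 : extremalNumber n H ≤ extremalNumber n (F ⊕g H) :=
      IsContained.extremalNumber_le ⟨(Embedding.sumInr (G := F) (H := H)).toCopy⟩
    exact_mod_cast h6
  · have h6 := extremalNumber_sum_le F H n (by omega)
    have h7 : (extremalNumber n (F ⊕g H) : ℝ) ≤
        extremalNumber n F + extremalNumber n H + k * n := by exact_mod_cast h6
    have h8 : (n : ℝ) ≤ (n : ℝ) ^ r := by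
      conv_lhs => rw [← Real.rpow_one (n : ℝ)]
      exact Real.rpow_le_rpow_of_exponent_le hn0 hr.le
    have h9 : A * (n : ℝ) ^ r ≤ |A| * (n : ℝ) ^ r := by
      gcongr
      exact le_abs_self A
    have h10 : (k : ℝ) * n ≤ k * (n : ℝ) ^ r := by gcongr
    calc (extremalNumber n (F ⊕g H) : ℝ) ≤ extremalNumber n F + extremalNumber n H + k * n := h7
      _ ≤ |A| * (n : ℝ) ^ r + C * (n : ℝ) ^ r + k * (n : ℝ) ^ r := by linarith
      _ = (|A| + C + k) * (n : ℝ) ^ r := by ring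

end Pool.Agent.Y825.RE
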