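import Mathlib.Combinatorics.SimpleGraph.Extremal.Basic
import Mathlib.Combinatorics.SimpleGraph.Sum
import Mathlib.Combinatorics.SimpleGraph.DeleteEdges
import Mathlib.Tactic

/-! Extremal numbers of disjoint unions of graphs. -/

set_option autoImplicit false

namespace Pool.Agent.Y825.RE

open SimpleGraph Finset

/-- delete all edges meeting `S` -/
def del {V : Type*} (G : SimpleGraph V) (S : Finset V) : SimpleGraph V where
  Adj a b := G.Adj a b ∧ a ∉ S ∧ b ∉ S
  symm := ⟨fun _ _ h => ⟨h.1.symm, h.2.2, h.2.1⟩⟩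
  loopless := ⟨fun _ h => h.1.ne rfl⟩

open scoped Classical in
/-- a copy of `F` in `G` minus a set `S` can be moved away from `S` -/
lemma copy_avoid {V : Type*} [Fintype V] {m : ℕ} (F : SimpleGraph (Fin m)) (G : SimpleGraph V)
    (S : Finset V) (hS : m + #S ≤ Fintype.card V) (G' : SimpleGraph V)
    (hG' : ∀ a b, G'.Adj a b ↔ G.Adj a b ∧ a ∉ S ∧ b ∉ S) (h : F ⊑ G') :
    ∃ f : Fin m → V, Function.Injective f ∧ (∀ i, f i ∉ S) ∧
      ∀ i j, F.Adj i j → G.Adj (f i) (f j) := by
  obtain ⟨g⟩ := h
  have hginj : Function.Injective g := g.injective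
  have hgadj : ∀ i j, F.Adj i j → G'.Adj (g i) (g j) := fun i j hij => g.toHom.map_adj hij
  let I : Finset (Fin m) := univ.filter (fun i => g i ∈ S)
  let A : Finset V := (univ \ S) \ (Iᶜ).image g
  have hA : #I ≤ #A := by
    have h1 : #(univ \ S) = Fintype.card V - #S := by
      rw [card_sdiff_of_subset (subset_univ _), card_univ]
    have h2 : #((Iᶜ).image g) ≤ m - #I := by
      refine card_image_le.trans ?_
      rw [card_compl, Fintype.card_fin]
    have h3 : #(univ \ S) - #((Iᶜ).image g) ≤ #A := le_card_sdiff _ _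
    have h4 : #I ≤ m := by
      have := card_le_univ I
      rwa [Fintype.card_fin] at this
    omega
  have hcard : Fintype.card I ≤ Fintype.card A := by
    rw [Fintype.card_coe, Fintype.card_coe]
    exact hA
  obtain ⟨e⟩ := Function.Embedding.nonempty_of_card_le hcard
  have hnot : ∀ i j, F.Adj i j → i ∉ I := by
    intro i j hij hi
    exact ((hG' _ _).1 (hgadj i j hij)).2.1 (mem_filter.1 hi).2
  refine ⟨fun i => if hi : i ∈ I then (e ⟨i, hi⟩ : V) else g i, ?_, ?_, ?_⟩
  · intro i j hij
    simp only at hij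
    split_ifs at hij with h1 h2 h2
    · have := e.injective (Subtype.ext hij)
      exact congrArg Subtype.val this
    · exfalso
      have h3 := (mem_sdiff.1 (e ⟨i, h1⟩).2).2
      apply h3
      rw [hij]
      exact mem_image_of_mem _ (mem_compl.2 h2)
    · exfalso
      have h3 := (mem_sdiff.1 (e ⟨j, h2⟩).2).2
      apply h3
      rw [← hij]
      exact mem_image_of_mem _ (mem_compl.2 h1)
    · exact hginj hij
  · intro i
    simp only
    split_ifs with h1
    · exact (mem_sdiff.1 (mem_sdiff.1 (e ⟨i, h1⟩).2).1).2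
    · intro h2
      exact h1 (mem_filter.2 ⟨mem_univ _, h2⟩)
  · intro i j hij
    simp only
    rw [dif_neg (hnot i j hij), dif_neg (hnot j i hij.symm)]
    exact ((hG' _ _).1 (hgadj i j hij)).1

open scoped Classical in
/-- the number of edges meeting a set -/
lemma edges_le {V : Type*} [Fintype V] (G G' : SimpleGraph V) (S : Finset V)
    (hG' : ∀ a b, G'.Adj a b ↔ G.Adj a b ∧ a ∉ S ∧ b ∉ S) :
    #G.edgeFinset ≤ #G'.edgeFinset + #S * Fintype.card V := by
  have h1 : G.edgeFinset ⊆ G'.edgeFinset ∪ S.biUnion (fun v => G.incidenceFinset v) := by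
    intro e he
    induction e with
    | _ a b =>
    rw [mem_edgeFinset, mem_edgeSet] at he
    rw [mem_union]
    by_cases ha : a ∈ S
    · right
      rw [mem_biUnion]
      exact ⟨a, ha, by rw [mem_incidenceFinset]; exact ⟨he, Sym2.mem_mk_left _ _⟩⟩
    · by_cases hb : b ∈ S
      · right
        rw [mem_biUnion]
        exact ⟨b, hb, by rw [mem_incidenceFinset]; exact ⟨he, Sym2.mem_mk_right _ _⟩⟩
      · left
        rw [mem_edgeFinset, mem_edgeSet]
        exact (hG' a b).2 ⟨he, ha, hb⟩
  refine (card_le_card h1).trans ((card_union_le _ _).trans ?_)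
  gcongr
  refine card_biUnion_le.trans ?_
  calc ∑ v ∈ S, #(G.incidenceFinset v) ≤ ∑ v ∈ S, Fintype.card V := by
        apply sum_le_sum
        intro v _
        rw [card_incidenceFinset_eq_degree]
        exact (G.degree_lt_card_verts v).le
    _ = #S * Fintype.card V := by rw [sum_const, smul_eq_mul]

/-- the extremal number of a disjoint union -/
theorem extremalNumber_sum_le {m k : ℕ} (F : SimpleGraph (Fin m)) (H : SimpleGraph (Fin k))
    (n : ℕ) (hn : m + k ≤ n) :
    extremalNumber n (F ⊕g H) ≤ extremalNumber n F + extremalNumber n H + k * n := by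
  classical
  conv_lhs => rw [← Fintype.card_fin n]
  rw [extremalNumber_le_iff]
  intro G _ hG
  by_contra hcon
  push Not at hcon
  apply hG
  have h1 : H ⊑ G := by
    apply IsContained.of_extremalNumber_lt_card_edgeFinset
    rw [Fintype.card_fin]
    omega
  obtain ⟨g⟩ := h1
  have hginj : Function.Injective g := g.injective
  let S : Finset (Fin n) := univ.image g
  have hSc : #S = k := by
    rw [card_image_of_injective _ hginj, card_univ, Fintype.card_fin]
  obtain ⟨G', hG'⟩ : ∃ G' : SimpleGraph (Fin n), ∀ a b, G'.Adj a b ↔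
      G.Adj a b ∧ a ∉ S ∧ b ∉ S := ⟨del G S, fun a b => Iff.rfl⟩
  have h2 := edges_le G G' S hG'
  rw [hSc, Fintype.card_fin] at h2
  have h3 : F ⊑ G' := by
    apply IsContained.of_extremalNumber_lt_card_edgeFinset
    rw [Fintype.card_fin]
    have e0 : ∀ (K : SimpleGraph (Fin n)) (i j : Fintype K.edgeSet),
        #(@edgeFinset _ K i) = #(@edgeFinset _ K j) := fun K i j =>
      congrArg (fun t => #(@edgeFinset _ K t)) (Subsingleton.elim i j)
    have h4 : #G.edgeFinset ≤ #G'.edgeFinset + k * n := by
      rw [e0 G _ _, e0 G' _ _]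
      exact h2
    have e1 := e0 G' (by infer_instance) (fintypeEdgeSet G')
    omega
  obtain ⟨f, hf1, hf2, hf3⟩ := copy_avoid F G S (by rw [hSc, Fintype.card_fin]; exact hn) G' hG' h3
  refine ⟨⟨⟨Sum.elim f g, ?_⟩, ?_⟩⟩
  · rintro (i | i) (j | j) hij
    · exact hf3 i j (by simpa using hij)
    · simp at hij
    · simp at hij
    · exact g.toHom.map_adj (by simpa using hij)
  · intro a b hab
    rcases a with a | a <;> rcases b with b | b
    · exact congrArg Sum.inl (hf1 (by simpa using hab))
    · exfalso
      apply hf2 a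
      have : f a = g b := by simpa using hab
      rw [this]
      exact mem_image_of_mem _ (mem_univ _)
    · exfalso
      apply hf2 b
      have : g a = f b := by simpa using hab
      rw [← this]
      exact mem_image_of_mem _ (mem_univ _)
    · exact congrArg Sum.inr (hginj (by simpa using hab))

end Pool.Agent.Y825.RE
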